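import Pool.Agent.H12Tree.NAll

/-!
# Atomicity of the classes of bounded clique-width: one algorithm for all widths

The input consists of a number `k` and a finite list `F` of graphs such that all graphs without
induced subgraph in `F` have clique-width at most `k`. If the algorithm halts, its answer to the
question whether the class `Free F` is atomic is correct. It halts exactly on the classes which
are not atomic or which are boundedly atomic. In particular it halts whenever `k ≤ 2`, and (for
every `k`) on all classes which are contained in the closure under substitution of a class of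
graphs of the form `NLC` with relabelling functions which satisfy the condition of Daligault, Rao
and Thomassé (that is, of the well-quasi-ordered classes of this form).

The definitions:
* `Pool.Agent.H12Letter` (`Pool/Agent/H12Letter/Defs.lean`): `FG`, `Emb`, `Hereditary`, `Atomic`,
  `decodeG`, `Free`;
* `Pool.Agent.H12Tree`: `CW`, `CliqueWidthLE` (`Cw.lean`), `BJoin`, `BoundedlyAtomic` (`BJ.lean`),
  `CG`, `glueG`, `DRR` (`NCG.lean`), `DRT`, `BoundedNLC` (`NDrt.lean`), `SubstCl` (`NSub.lean`).
-/

set_option autoImplicit false

namespace Pool.Agent.Results.MP_2ed11b_lc.AllWidths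

open Pool.Agent.H12Letter Pool.Agent.H12Tree

theorem result :
    ∃ A : ℕ × List (ℕ × List (ℕ × ℕ)) →. Bool, Partrec A ∧
      ∀ (k : ℕ) (F : List (ℕ × List (ℕ × ℕ))), (∀ G ∈ Free F, CliqueWidthLE k G) →
        (∀ b ∈ A (k, F), (b = true ↔ Atomic (Free F))) ∧
        ((A (k, F)).Dom ↔ (¬ Atomic (Free F) ∨ BoundedlyAtomic (Free F))) ∧
        (k ≤ 2 → (A (k, F)).Dom) ∧
        (∀ Y : Set FG, BoundedNLC Y → (∀ G ∈ Free F, SubstCl Y G) → (A (k, F)).Dom) :=
  main5

end Pool.Agent.Results.MP_2ed11b_lc.AllWidths
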