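import Pool.Agent.H12Tree.NAll

/-!
# Deciding atomicity without a promise

The input is a finite list `F` of graphs. The algorithm halts if and only if the class `Free F`
of the graphs without induced subgraph in `F` has bounded decomposition width: for some numbers
`m`, `r` the vertices of every graph in `Free F` can be labelled by `m` labels such that the graph
can be built from its vertices by unions of `r` parts at a time, where the adjacency of vertices
in different parts is determined by the numbers of the parts and the labels. If it halts, its
answer to the question whether `Free F` is atomic is correct, and `Free F` has bounded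
clique-width. The classes of clique-width at most
`2`, of bounded lettericity, of `m`-partite cographs, and those with clique-width expressions of
bounded nesting depth of the renamings have bounded decomposition width.

The definitions:
* `Pool.Agent.H12Letter` (`Pool/Agent/H12Letter/Defs.lean`): `FG`, `Emb`, `Hereditary`, `Atomic`,
  `decodeG`, `Free`, `LetterGraph`, `BoundedLettericity`;
* `Pool.Agent.H12Tree`: `Dec` (`Gram.lean`), `CW`, `CliqueWidthLE`, `BoundedDec` (`Cw.lean`),
  `MPart` (`CorB.lean`), `CWd` (`CorC.lean`).
-/

set_option autoImplicit false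

namespace Pool.Agent.Results.MP_2ed11b_lc.WithoutPromise

open Pool.Agent.H12Letter Pool.Agent.H12Tree

theorem result :
    ∃ A : List (ℕ × List (ℕ × ℕ)) →. Bool, Partrec A ∧
      (∀ F, ∀ b ∈ A F, (b = true ↔ Atomic (Free F))) ∧
      (∀ F, (A F).Dom ↔ BoundedDec (Free F)) ∧
      (∀ F, (A F).Dom → ∃ k, ∀ G ∈ Free F, CliqueWidthLE k G) ∧
      (∀ F, (∀ G ∈ Free F, CliqueWidthLE 2 G) → (A F).Dom) ∧
      (∀ F, BoundedLettericity (Free F) → (A F).Dom) ∧
      (∀ F m, (∀ G ∈ Free F, ∃ c : Fin G.1 → Fin m, MPart G.2 m c Set.univ) → (A F).Dom) ∧
      (∀ F k d, (∀ G ∈ Free F, G.1 = 0 ∨ ∃ c : Fin G.1 → Fin k, CWd k d (Fin G.1) G.2 c) →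
        (A F).Dom) :=
  main6

end Pool.Agent.Results.MP_2ed11b_lc.WithoutPromise
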